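import Pool.Agent.MP_735563_an.H2.Top
import Pool.Agent.MP_735563_an.H2.Univ

set_option autoImplicit false

open MeasureTheory Filter Topology

namespace Pool.Agent.Results.MP_735563_an.PropertyT

universe u

/-- Property (T) of Zimmer and Moore for the relation `E` on `(X, μ)`.  A measurable field of
Hilbert spaces `H` is given by a fundamental sequence `e` of sections (measurable inner products,
dense span in every fibre); a section is measurable if its inner products with all `e n` are.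
A cocycle `π` is unitary (linear, onto, isometric) and measurable on `E`; its values outside `E`
play no role.  If `π` has almost invariant measurable unit sections, then it has an invariant
measurable unit section. -/
def HasT {X : Type} [MeasurableSpace X] (μ : Measure X) (E : Set (X × X)) : Prop :=
  ∀ (H : X → Type u) [∀ x, NormedAddCommGroup (H x)] [I : ∀ x, InnerProductSpace ℂ (H x)]
    [∀ x, CompleteSpace (H x)] (e : ℕ → ∀ x, H x),
    (∀ n m, Measurable fun x => @inner ℂ _ (I x).toInner (e n x) (e m x)) →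
    (∀ x, Dense (Submodule.span ℂ (Set.range fun n => e n x) : Set (H x))) →
    ∀ π : ∀ x y, H y → H x,
    (∀ x y, (x, y) ∈ E →
      IsLinearMap ℂ (π x y) ∧ Function.Surjective (π x y) ∧ ∀ v, ‖π x y v‖ = ‖v‖) →
    (∀ n m, Measurable (E.domRestrict fun q : X × X =>
      @inner ℂ _ (I q.1).toInner (e n q.1) (π q.1 q.2 (e m q.2)))) →
    (∀ᵐ x ∂μ, ∀ y z, (x, y) ∈ E → (y, z) ∈ E → ∀ v, π x y (π y z v) = π x z v) →
    (∃ ξ : ℕ → ∀ x, H x,
      (∀ k n, Measurable fun x => @inner ℂ _ (I x).toInner (e n x) (ξ k x)) ∧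
      (∀ k, ∀ᵐ x ∂μ, ‖ξ k x‖ = 1) ∧
      ∀ φ : X ≃ᵐ X, (∀ᵐ x ∂μ, (x, φ x) ∈ E) →
        TendstoInMeasure μ (fun k x => ‖π x (φ.symm x) (ξ k (φ.symm x)) - ξ k x‖) atTop 0) →
    ∃ ξ : ∀ x, H x, (∀ n, Measurable fun x => @inner ℂ _ (I x).toInner (e n x) (ξ x)) ∧
      (∀ᵐ x ∂μ, ‖ξ x‖ = 1) ∧ ∀ᵐ x ∂μ, ∀ y, (x, y) ∈ E → π x y (ξ y) = ξ x

/-- An ergodic measure preserving countable Borel equivalence relation with spectral gap and with
property (T) that contains no essentially free measure preserving action of the free group of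
rank two. -/
theorem result :
    ∃ (X : Type) (_ : MeasurableSpace X) (_ : StandardBorelSpace X) (μ : Measure X)
      (_ : IsProbabilityMeasure μ) (E : Set (X × X)),
      (∀ x, μ {x} = 0) ∧ MeasurableSet E ∧ Equivalence (fun x y => (x, y) ∈ E) ∧
      (∀ x, {y | (x, y) ∈ E}.Countable) ∧
      (∀ φ : X ≃ᵐ X, (∀ᵐ x ∂μ, (x, φ x) ∈ E) → MeasurePreserving φ μ μ) ∧
      (∀ B : Set X, MeasurableSet B → (∀ x y, (x, y) ∈ E → x ∈ B → y ∈ B) →
        μ B = 0 ∨ μ B = 1) ∧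
      (∃ (F : Finset (X ≃ᵐ X)) (ε : ℝ), 0 < ε ∧ (∀ φ ∈ F, ∀ x, (x, φ x) ∈ E) ∧
        ∀ ξ : X → ℂ, MemLp ξ 2 μ → ∫ x, ξ x ∂μ = 0 →
          ∃ φ ∈ F, ENNReal.ofReal ε * eLpNorm ξ 2 μ ≤
            eLpNorm (fun x => ξ (φ.symm x) - ξ x) 2 μ) ∧
      HasT.{u} μ E ∧
      ¬ ∃ a : FreeGroup (Fin 2) → X → X, (∀ g, MeasurePreserving (a g) μ μ) ∧
        (∀ᵐ x ∂μ, a 1 x = x) ∧ (∀ g h, ∀ᵐ x ∂μ, a (g * h) x = a g (a h x)) ∧
        (∀ g, g ≠ 1 → ∀ᵐ x ∂μ, a g x ≠ x) ∧ ∀ g, ∀ᵐ x ∂μ, (x, a g x) ∈ E := by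
  obtain ⟨X, i1, i2, μ, i3, E, h1, h2, h3, h4, h5, h6, h7, h8, h9⟩ :=
    Pool.Agent.MP_735563_an.H2.final
  refine ⟨X, i1, i2, μ, i3, E, h1, h2, h3, h4, h5, h6, h7, ?_, h9⟩
  rintro H _ _ _ e k1 k2 π k3 k4 k5 ⟨ξ, k6, k7, k8⟩
  refine Pool.Agent.MP_735563_an.H2.PropT.univ h8 H e k1 k2
    (fun x y h => LinearIsometryEquiv.ofSurjective
      ⟨(k3 x y h).1.mk' _, (k3 x y h).2.2⟩ (k3 x y h).2.1)
    k4 (k5.mono fun x hx y z a b _ v => hx y z a b v) ⟨ξ, k6, k7, fun φ hφ ε hε => ?_⟩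
  refine tendsto_of_tendsto_of_tendsto_of_le_of_le tendsto_const_nhds
    (tendstoInMeasure_iff_norm.1 (k8 φ hφ) ε hε) (fun _ => zero_le) fun k => measure_mono ?_
  rintro x ⟨_, hx⟩
  simpa using hx

end Pool.Agent.Results.MP_735563_an.PropertyT
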